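import Pool.Agent.Q248.FS.Main

/-!
# MP_d64882: every number field that is a fake subfield is a fake subfield with a split extension
-/

set_option autoImplicit false

namespace Pool.Agent.Results.MP_d64882_nt.SplitFakeSubfields

open Q248.FS

/-- If the number field `K` is a fake subfield of some number field, then it is a fake subfield of
some number field `F` for which the extension `1 → N_F → Γ_F → G → 1` splits. -/
theorem result (K : IntermediateField ℚ Qb) [NumberField K]
    (h : ∃ (F : IntermediateField ℚ Qb) (_ : NumberField F), FakeSubfield K F) :
    ∃ (F : IntermediateField ℚ Qb) (_ : NumberField F), FakeSubfield K F ∧ Splits K F := by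
  obtain ⟨F, hF, h⟩ := h
  exact main K F h

end Pool.Agent.Results.MP_d64882_nt.SplitFakeSubfields
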